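import Pool.Agent.TH838.LK.EXP

set_option autoImplicit false

/-!
LK project, job AV2: mean values of the square of zeta times products of block polynomials.
-/

namespace Pool.Agent.TH838.LK

open Finset Filter Topology MeasureTheory MonoidAlgebra
open Pool.Agent.W184.NZ
open Pool.Agent.TH806
open Pool.Agent.TH806.LK
open Pool.Agent.H306R2.SM (om cl Yf)
open Pool.Agent.H262R4.TM (Rng Ck)

noncomputable section

/-- size of the coefficients of a block -/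
lemma fac_bound {S b : ℝ} {K : ℕ} (hS : 0 ≤ S) (hb : 10 ≤ b) (hK : 3 * S ≤ K) {c : ℕ → ℕ → ℂ}
    (hc : ∀ k l, ‖c k l‖ ≤ S ^ k / (k.factorial : ℝ) * (S ^ l / (l.factorial : ℝ))) :
    ∑ x ∈ range (K + 1) ×ˢ range (K + 1), ‖c x.1 x.2‖ * b ^ (x.1 + x.2) ≤ b ^ (4 * K) := by
  have hb0 : 0 < b := by linarith
  have hb1 : 1 ≤ b := by linarith
  have h1 : ∑ x ∈ range (K + 1) ×ˢ range (K + 1), ‖c x.1 x.2‖ * b ^ (x.1 + x.2) ≤
      ∑ x ∈ range (K + 1) ×ˢ range (K + 1), (S ^ x.1 / (x.1.factorial : ℝ) * b ^ K) *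
        (S ^ x.2 / (x.2.factorial : ℝ) * b ^ K) := by
    refine sum_le_sum fun x hx => ?_
    rw [mem_product, mem_range, mem_range] at hx
    have h2 : b ^ (x.1 + x.2) ≤ b ^ K * b ^ K := by
      rw [← pow_add]
      exact pow_le_pow_right₀ hb1 (by omega)
    calc ‖c x.1 x.2‖ * b ^ (x.1 + x.2) ≤
        (S ^ x.1 / (x.1.factorial : ℝ) * (S ^ x.2 / (x.2.factorial : ℝ))) * (b ^ K * b ^ K) :=
          mul_le_mul (hc _ _) h2 (by positivity) (by positivity)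
      _ = _ := by ring
  have h3 : ∑ k ∈ range (K + 1), S ^ k / (k.factorial : ℝ) * b ^ K ≤ b ^ (2 * K) := by
    rw [← sum_mul, two_mul, pow_add]
    refine mul_le_mul_of_nonneg_right ?_ (by positivity)
    refine (Real.sum_le_exp_of_nonneg hS _).trans ?_
    have h4 : Real.exp 1 ≤ b := by have := Real.exp_one_lt_d9; linarith
    calc Real.exp S ≤ Real.exp (K : ℝ) := Real.exp_le_exp.mpr (by linarith)
      _ = Real.exp 1 ^ K := by rw [← Real.exp_nat_mul, mul_one]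
      _ ≤ b ^ K := pow_le_pow_left₀ (Real.exp_pos _).le h4 _
  refine h1.trans ?_
  rw [sum_product]
  dsimp only
  rw [← sum_mul_sum]
  calc _ ≤ b ^ (2 * K) * b ^ (2 * K) := by
        refine mul_le_mul h3 h3 ?_ (by positivity)
        exact sum_nonneg fun k _ => by positivity
    _ = b ^ (4 * K) := by rw [← pow_add]; congr 1; ring

/-- the logarithmic functional of a block -/
lemma ll_bound {Q C S b : ℝ} {I : Finset ℕ} {ν : Measure (ℂ × ℂ)} (h : LW w1 1 1 Q C I ν) (hb : 10 ≤ b)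
    (hI : ∀ p ∈ I, p.Prime ∧ (p:ℝ) ≤ b) (hS : 0 ≤ S) (hQ : 4 * S ≤ Q) (K : ℕ) {c : ℕ → ℕ → ℂ}
    (hc : ∀ k l, ‖c k l‖ ≤ S ^ k / (k.factorial : ℝ) * (S ^ l / (l.factorial : ℝ))) :
    ‖∑ x ∈ range (K + 1) ×ˢ range (K + 1), c x.1 x.2 * ((lam wl (mm I x) : ℝ) : ℂ)‖ ≤
      4 * (K * Real.log b) * (C * Real.exp (C * (vI I + uI I))) := by
  have := h.prob
  obtain ⟨B, hB⟩ := h.bdd
  have hlog : 0 ≤ Real.log b := Real.log_nonneg (by linarith)
  have hi : ∀ k l : ℕ, Integrable (fun q : ℂ × ℂ => S ^ k / (k.factorial : ℝ) * (S ^ l / (l.factorial : ℝ)) *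
      (‖q.2‖ * (‖q.1‖ ^ k * ‖q.1‖ ^ l))) ν := fun k l => integ2 hB (by fun_prop)
  have h1 : ∀ x : ℕ × ℕ, |lam w1 (mm I x)| ≤ ∫ q, ‖q.2‖ * (‖q.1‖ ^ x.1 * ‖q.1‖ ^ x.2) ∂ν := by
    intro x
    have h2 := h.mom x.1 x.2
    have h3 : ‖((lam w1 (mm I x) : ℝ) : ℂ)‖ ≤ ∫ q, ‖q.2‖ * (‖q.1‖ ^ x.1 * ‖q.1‖ ^ x.2) ∂ν := by
      unfold mm
      rw [← h2]
      refine (norm_integral_le_integral_norm _).trans (le_of_eq ?_)
      refine integral_congr_ae (Eventually.of_forall fun q => ?_)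
      simp only
      rw [norm_mul, norm_mul, norm_pow, norm_pow, RCLike.norm_conj]
    rwa [Complex.norm_real, Real.norm_eq_abs] at h3
  have h4 : ∀ x ∈ range (K + 1) ×ˢ range (K + 1), ‖c x.1 x.2 * ((lam wl (mm I x) : ℝ) : ℂ)‖ ≤
      4 * (K * Real.log b) * ∫ q, S ^ x.1 / (x.1.factorial : ℝ) * (S ^ x.2 / (x.2.factorial : ℝ)) *
        (‖q.2‖ * (‖q.1‖ ^ x.1 * ‖q.1‖ ^ x.2)) ∂ν := by
    intro x hx
    rw [mem_product, mem_range, mem_range] at hx
    rw [norm_mul, Complex.norm_real, Real.norm_eq_abs, integral_const_mul]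
    have h5 := wl_bound (mm_Nn x) (mm_Bd hI x)
    rw [Real.log_pow] at h5
    have h6 : |lam wl (mm I x)| ≤ 4 * (K * Real.log b) * ∫ q, ‖q.2‖ * (‖q.1‖ ^ x.1 * ‖q.1‖ ^ x.2) ∂ν := by
      refine h5.trans ?_
      have h7 : ((x.1 + x.2 : ℕ) : ℝ) ≤ 2 * K := by
        have : x.1 + x.2 ≤ 2 * K := by omega
        exact_mod_cast this
      calc 2 * (((x.1 + x.2 : ℕ) : ℝ) * Real.log b) * lam w1 (mm I x) ≤
          2 * (((x.1 + x.2 : ℕ) : ℝ) * Real.log b) * |lam w1 (mm I x)| :=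
            mul_le_mul_of_nonneg_left (le_abs_self _) (by positivity)
        _ ≤ 2 * ((2 * K) * Real.log b) * ∫ q, ‖q.2‖ * (‖q.1‖ ^ x.1 * ‖q.1‖ ^ x.2) ∂ν := by
            refine mul_le_mul ?_ (h1 x) (abs_nonneg _) (by positivity)
            gcongr
        _ = _ := by ring
    calc ‖c x.1 x.2‖ * |lam wl (mm I x)| ≤ (S ^ x.1 / (x.1.factorial : ℝ) * (S ^ x.2 / (x.2.factorial : ℝ))) *
        (4 * (K * Real.log b) * ∫ q, ‖q.2‖ * (‖q.1‖ ^ x.1 * ‖q.1‖ ^ x.2) ∂ν) :=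
          mul_le_mul (hc _ _) h6 (abs_nonneg _) (by positivity)
      _ = _ := by ring
  refine (norm_sum_le _ _).trans ((sum_le_sum h4).trans ?_)
  rw [← mul_sum, ← integral_finsetSum _ fun x _ => hi x.1 x.2]
  refine mul_le_mul_of_nonneg_left ?_ (by positivity)
  have h8 : ∀ q : ℂ × ℂ, ∑ x ∈ range (K + 1) ×ˢ range (K + 1), S ^ x.1 / (x.1.factorial : ℝ) *
      (S ^ x.2 / (x.2.factorial : ℝ)) * (‖q.2‖ * (‖q.1‖ ^ x.1 * ‖q.1‖ ^ x.2)) ≤
      1 / 2 * ‖q.2‖ ^ 2 + 1 / 2 * Real.exp (Q * ‖q.1‖) := by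
    intro q
    have e1 : ∑ x ∈ range (K + 1) ×ˢ range (K + 1), S ^ x.1 / (x.1.factorial : ℝ) *
        (S ^ x.2 / (x.2.factorial : ℝ)) * (‖q.2‖ * (‖q.1‖ ^ x.1 * ‖q.1‖ ^ x.2)) =
        ‖q.2‖ * ((∑ k ∈ range (K + 1), (S * ‖q.1‖) ^ k / (k.factorial : ℝ)) *
          ∑ l ∈ range (K + 1), (S * ‖q.1‖) ^ l / (l.factorial : ℝ)) := by
      rw [sum_product, sum_mul_sum, mul_sum]
      refine sum_congr rfl fun k _ => ?_
      rw [mul_sum]
      refine sum_congr rfl fun l _ => ?_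
      rw [mul_pow, mul_pow]; ring
    have hx : 0 ≤ S * ‖q.1‖ := by positivity
    have h9 := Real.sum_le_exp_of_nonneg hx (K + 1)
    have h10 : 0 ≤ ∑ k ∈ range (K + 1), (S * ‖q.1‖) ^ k / (k.factorial : ℝ) :=
      sum_nonneg fun k _ => by positivity
    have h11 : (∑ k ∈ range (K + 1), (S * ‖q.1‖) ^ k / (k.factorial : ℝ)) *
          ∑ l ∈ range (K + 1), (S * ‖q.1‖) ^ l / (l.factorial : ℝ) ≤ Real.exp (2 * S * ‖q.1‖) := by
      refine (mul_le_mul h9 h9 h10 (Real.exp_pos _).le).trans (le_of_eq ?_)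
      rw [← Real.exp_add]; congr 1; ring
    have h12 : Real.exp (2 * S * ‖q.1‖) ^ 2 ≤ Real.exp (Q * ‖q.1‖) := by
      rw [← Real.exp_nat_mul]
      refine Real.exp_le_exp.mpr ?_
      push_cast
      nlinarith [norm_nonneg q.1]
    rw [e1]
    refine (mul_le_mul_of_nonneg_left h11 (norm_nonneg _)).trans ?_
    nlinarith [sq_nonneg (‖q.2‖ - Real.exp (2 * S * ‖q.1‖))]
  refine (integral_mono (integrable_finsetSum _ fun x _ => hi x.1 x.2)
    (((integ2 hB (f := fun q : ℂ × ℂ => 1 / 2 * ‖q.2‖ ^ 2) (by fun_prop))).add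
      (integ2 hB (f := fun q : ℂ × ℂ => 1 / 2 * Real.exp (Q * ‖q.1‖)) (by fun_prop))) h8).trans ?_
  simp only [Pi.add_apply]
  rw [integral_add (integ2 hB (by fun_prop)) (integ2 hB (by fun_prop)), integral_const_mul, integral_const_mul]
  linarith [h.dsq, h.expn]

/-- the main identity -/
lemma main_eq {Q C cc : ℝ} {J : ℕ} {I : ℕ → Finset ℕ} {b : ℕ → ℝ} {ν : ℕ → Measure (ℂ × ℂ)}
    (hR : Rg cc J I b) (h : ∀ i < J, LW w1 1 1 Q C (I i) (ν i)) {K : ℕ → ℕ} {c : ℕ → ℕ → ℕ → ℂ}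
    {f : ℕ → ℂ → ℂ} (hf : ∀ i < J, ∀ z, f i z = Fc (K i) (c i) z) (A : ℝ) :
    ∑ φ ∈ PH J K, WC J c (ext φ) * ((A * lam w1 (MM J I (ext φ)) - lam wl (MM J I (ext φ)) : ℝ) : ℂ) =
      A * ∏ i ∈ range J, ∫ q, q.2 * f i q.1 ∂(ν i) -
      ∑ i ∈ range J, (∑ x ∈ range (K i + 1) ×ˢ range (K i + 1),
        c i x.1 x.2 * ((lam wl (mm (I i) x) : ℝ) : ℂ)) *
          ∏ j ∈ (range J).erase i, ∫ q, q.2 * f j q.1 ∂(ν j) := by
  have e1 : ∀ i ∈ range J, ∫ q, q.2 * f i q.1 ∂(ν i) = ∑ x ∈ range (K i + 1) ×ˢ range (K i + 1),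
      c i x.1 x.2 * ((lam w1 (mm (I i) x) : ℝ) : ℂ) := by
    intro i hi
    simp_rw [hf i (mem_range.mp hi)]
    exact int_Fc (h i (mem_range.mp hi)) _ _
  have e2 : ∑ φ ∈ PH J K, WC J c (ext φ) * ((lam wl (MM J I (ext φ)) : ℝ) : ℂ) =
      ∑ i ∈ range J, (∑ x ∈ range (K i + 1) ×ˢ range (K i + 1),
        c i x.1 x.2 * ((lam wl (mm (I i) x) : ℝ) : ℂ)) *
          ∏ j ∈ (range J).erase i, ∫ q, q.2 * f j q.1 ∂(ν j) := by
    have e3 : ∀ i ∈ range J, (∑ x ∈ range (K i + 1) ×ˢ range (K i + 1),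
        c i x.1 x.2 * ((lam wl (mm (I i) x) : ℝ) : ℂ)) *
          ∏ j ∈ (range J).erase i, ∫ q, q.2 * f j q.1 ∂(ν j) =
        ∑ φ ∈ PH J K, (c i (ext φ i).1 (ext φ i).2 * ((lam wl (mm (I i) (ext φ i)) : ℝ) : ℂ)) *
          ∏ j ∈ (range J).erase i, (c j (ext φ j).1 (ext φ j).2 * ((lam w1 (mm (I j) (ext φ j)) : ℝ) : ℂ)) := by
      intro i hi
      rw [prod_congr rfl fun j hj => e1 j (mem_of_mem_erase hj)]
      exact expand_erase J K (fun i x => c i x.1 x.2 * ((lam wl (mm (I i) x) : ℝ) : ℂ))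
        (fun i x => c i x.1 x.2 * ((lam w1 (mm (I i) x) : ℝ) : ℂ)) (mem_range.mp hi)
    rw [sum_congr rfl e3, sum_comm]
    refine sum_congr rfl fun φ _ => ?_
    rw [laml_MM hR]
    push_cast
    rw [mul_sum]
    refine sum_congr rfl fun i hi => ?_
    unfold WC
    rw [prod_mul_distrib, ← mul_prod_erase (range J) _ hi]
    ring
  rw [prod_int h hf, ← e2, mul_sum, ← sum_sub_distrib]
  refine sum_congr rfl fun φ _ => ?_
  rw [lam_MM goodW1 hR]
  push_cast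
  ring

theorem t_AV2 : P_AV2 := by
  obtain ⟨η, hη, hT⟩ := two_avg
  refine ⟨min (η / 8) (1 / 100), by positivity, min_le_right _ _, fun cc Q C S hcc hS hQ => ?_⟩
  refine ⟨3 + 4 * (|C| * Real.exp (|C| * (cc + cc))), by positivity, ?_⟩
  have hsm : ∀ᶠ T : ℝ in atTop, 2 * T ^ (-(η / 4)) ≤ 1 := by
    have h1 := (tendsto_rpow_neg_atTop (y := η / 4) (by positivity)).const_mul 2
    rw [mul_zero] at h1
    exact h1.eventually_le_const (by positivity)
  filter_upwards [hT, hsm, eventually_ge_atTop (1:ℝ), Real.tendsto_log_atTop.eventually_ge_atTop 1] with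
    T hT hsm hT1 hL κ hκ J I b K f ν hR hν hf hsum
  have hT0 : 0 < T := by linarith
  have hk1 : 1 ≤ κ := by
    have := hκ.1
    have h2 : (0:ℝ) < κ := lt_of_lt_of_le (by positivity) this
    exact_mod_cast h2
  have hδ : 0 < (κ:ℝ) / T := by
    have : (0:ℝ) < κ := by exact_mod_cast hk1
    positivity
  set η₀ := min (η / 8) (1 / 100) with hη₀
  have hη₀0 : 0 < η₀ := by positivity
  have hη₀1 : η₀ ≤ η / 8 := min_le_left _ _
  have hη₀2 : η₀ ≤ 1 / 100 := min_le_right _ _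
  set L := Real.log T with hLd
  have hc : ∀ i, ∃ c : ℕ → ℕ → ℂ, i < J →
      (∀ k l, ‖c k l‖ ≤ S ^ k / (k.factorial : ℝ) * (S ^ l / (l.factorial : ℝ))) ∧ ∀ z, f i z = Fc (K i) c z := by
    intro i
    by_cases hi : i < J
    · obtain ⟨c, h1, h2⟩ := (hf i hi).2.2.1
      exact ⟨c, fun _ => ⟨h1, h2⟩⟩
    · exact ⟨fun _ _ => 0, fun h => absurd h hi⟩
  choose c hc using hc
  have hf1 : ∀ i < J, ∀ z, f i z = Fc (K i) (c i) z := fun i hi => (hc i hi).2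
  have hBd : ∀ φ ∈ PH J K, Bd (T ^ ((1:ℝ) / 4)) (MM J I (ext φ)) := by
    intro φ hφ
    refine (MM_Bd hR fun i hi => ext_mem hφ hi).mono ?_
    rw [Real.rpow_def_of_pos hT0, ← hLd]
    apply Real.exp_le_exp.mpr
    nlinarith
  have hint : ∫ t in Set.Ioi (0:ℝ), ((wz κ T t : ℝ) : ℂ) * ∏ i ∈ range J, f i (zz I t i) =
      ∑ φ ∈ PH J K, WC J c (ext φ) *
        ((∫ t in Set.Ioi (0:ℝ), wz κ T t * (ev t (MM J I (ext φ))).re : ℝ) : ℂ) := by
    simp_rw [prod_re (Rg_pr hR) hf1 (fun i hi => (hf i hi).2.2.2), mul_sum]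
    have hi : ∀ φ ∈ PH J K, IntegrableOn (fun t => wz κ T t * (ev t (MM J I (ext φ))).re) (Set.Ioi 0) :=
      fun φ hφ => wz_int κ hδ (ev_re_cont (hBd φ hφ)) (ev_re_le (hBd φ hφ))
    have e1 : ∀ (φ : Fin J → ℕ × ℕ) (t : ℝ), ((wz κ T t : ℝ) : ℂ) * (WC J c (ext φ) *
        (((ev t (MM J I (ext φ))).re : ℝ) : ℂ)) = WC J c (ext φ) *
          ((wz κ T t * (ev t (MM J I (ext φ))).re : ℝ) : ℂ) := by
      intro φ t; push_cast; ring
    simp_rw [e1]
    rw [integral_finsetSum _ fun φ hφ => ((hi φ hφ).ofReal).const_mul _]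
    refine sum_congr rfl fun φ hφ => ?_
    rw [integral_const_mul, integral_complex_ofReal]
  have hmain := main_eq hR hν hf1 (Real.log (Yf κ T) + Ck κ)
  have herr : ‖(∫ t in Set.Ioi (0:ℝ), ((wz κ T t : ℝ) : ℂ) * ∏ i ∈ range J, f i (zz I t i)) -
      ∑ φ ∈ PH J K, WC J c (ext φ) * (((Real.log (Yf κ T) + Ck κ) * lam w1 (MM J I (ext φ)) -
        lam wl (MM J I (ext φ)) : ℝ) : ℂ)‖ ≤ T ^ (-η₀) := by
    rw [hint, ← sum_sub_distrib]
    have h1 : ∀ φ ∈ PH J K, ‖WC J c (ext φ) *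
        ((∫ t in Set.Ioi (0:ℝ), wz κ T t * (ev t (MM J I (ext φ))).re : ℝ) : ℂ) -
        WC J c (ext φ) * (((Real.log (Yf κ T) + Ck κ) * lam w1 (MM J I (ext φ)) -
        lam wl (MM J I (ext φ)) : ℝ) : ℂ)‖ ≤ 2 * T ^ (-η) * (‖WC J c (ext φ)‖ *
          ∏ i ∈ range J, b i ^ ((ext φ i).1 + (ext φ i).2)) := by
      intro φ hφ
      rw [← mul_sub, norm_mul, ← Complex.ofReal_sub, Complex.norm_real, Real.norm_eq_abs]
      have h2 := hT κ hκ (MM J I (ext φ)) (hBd φ hφ)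
      have h3 := MM_l1 hR (ext φ)
      calc _ ≤ ‖WC J c (ext φ)‖ * (2 * T ^ (-η) * ∏ i ∈ range J, b i ^ ((ext φ i).1 + (ext φ i).2)) := by
            refine mul_le_mul_of_nonneg_left (h2.trans ?_) (norm_nonneg _)
            exact mul_le_mul_of_nonneg_left h3 (by positivity)
        _ = _ := by ring
    refine (norm_sum_le _ _).trans ((sum_le_sum h1).trans ?_)
    rw [← mul_sum, sum_WC]
    have h4 : ∏ i ∈ range J, ∑ x ∈ range (K i + 1) ×ˢ range (K i + 1), ‖c i x.1 x.2‖ * b i ^ (x.1 + x.2) ≤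
        T ^ (4 * η₀) := by
      calc _ ≤ ∏ i ∈ range J, b i ^ (4 * K i) := by
            refine prod_le_prod (fun i hi => ?_) fun i hi => ?_
            · have := hR.b10 i (mem_range.mp hi)
              exact sum_nonneg fun x _ => by positivity
            · have hi' := mem_range.mp hi
              exact fac_bound hS (hR.b10 i hi') (hf i hi').2.1 (hc i hi').1
        _ = Real.exp (4 * ∑ i ∈ range J, (K i : ℝ) * Real.log (b i)) := by
            rw [mul_sum, Real.exp_sum]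
            refine prod_congr rfl fun i hi => ?_
            have hb := hR.b10 i (mem_range.mp hi)
            rw [show 4 * ((K i : ℝ) * Real.log (b i)) = ((4 * K i : ℕ) : ℝ) * Real.log (b i) by push_cast; ring,
              Real.exp_nat_mul, Real.exp_log (by linarith)]
        _ ≤ T ^ (4 * η₀) := by
            rw [Real.rpow_def_of_pos hT0, ← hLd]
            exact Real.exp_le_exp.mpr (by linarith)
    calc _ ≤ 2 * T ^ (-η) * T ^ (4 * η₀) := mul_le_mul_of_nonneg_left h4 (by positivity)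
      _ = (2 * T ^ (-(η / 4))) * T ^ (-(3 * η / 4) + 4 * η₀) := by
          rw [mul_assoc, mul_assoc, ← Real.rpow_add hT0, ← Real.rpow_add hT0]
          congr 2; ring
      _ ≤ 1 * T ^ (-η₀) := by
          refine mul_le_mul hsm ?_ (by positivity) zero_le_one
          exact Real.rpow_le_rpow_of_exponent_le hT1 (by linarith)
      _ = _ := one_mul _
  rw [hmain] at herr
  set P := ∏ i ∈ range J, ∫ q, q.2 * f i q.1 ∂(ν i) with hP
  have hP1 : ‖P‖ = ∏ i ∈ range J, ‖∫ q, q.2 * f i q.1 ∂(ν i)‖ := norm_prod _ _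
  have hY := yf_bound hk1 hT0
  have hA : |Real.log (Yf κ T) + Ck κ| ≤ 3 * L := by
    have h1 := abs_le.mp hY
    rw [abs_le]
    constructor <;> linarith [h1.1, h1.2]
  have hE : ∀ i < J, C * Real.exp (C * (vI (I i) + uI (I i))) ≤ |C| * Real.exp (|C| * (cc + cc)) := by
    intro i hi
    have h1 := hR.v i hi
    have h2 := hR.u hi
    have h3 := vI_nonneg (I i)
    have h4 := uI_nonneg (I i)
    have h5 : C * (vI (I i) + uI (I i)) ≤ |C| * (cc + cc) := by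
      calc C * (vI (I i) + uI (I i)) ≤ |C| * (vI (I i) + uI (I i)) :=
            mul_le_mul_of_nonneg_right (le_abs_self C) (by linarith)
        _ ≤ _ := mul_le_mul_of_nonneg_left (by linarith) (abs_nonneg C)
    calc C * Real.exp (C * (vI (I i) + uI (I i))) ≤ |C| * Real.exp (C * (vI (I i) + uI (I i))) :=
          mul_le_mul_of_nonneg_right (le_abs_self C) (Real.exp_pos _).le
      _ ≤ _ := mul_le_mul_of_nonneg_left (Real.exp_le_exp.mpr h5) (abs_nonneg C)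
  set E := |C| * Real.exp (|C| * (cc + cc)) with hEd
  have hE0 : 0 ≤ E := by positivity
  set Z := ∑ i ∈ range J, (∑ x ∈ range (K i + 1) ×ˢ range (K i + 1),
        c i x.1 x.2 * ((lam wl (mm (I i) x) : ℝ) : ℂ)) *
          ∏ j ∈ (range J).erase i, ∫ q, q.2 * f j q.1 ∂(ν j) with hZ
  set X := ∑ i ∈ range J, (K i : ℝ) * Real.log (b i) *
          ∏ j ∈ (range J).erase i, ‖∫ q, q.2 * f j q.1 ∂(ν j)‖ with hX
  have hX0 : 0 ≤ X := by
    refine sum_nonneg fun i hi => ?_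
    have hb := hR.b10 i (mem_range.mp hi)
    have h1 : 0 ≤ Real.log (b i) := Real.log_nonneg (by linarith)
    have h2 : 0 ≤ ∏ j ∈ (range J).erase i, ‖∫ q, q.2 * f j q.1 ∂(ν j)‖ := prod_nonneg fun _ _ => norm_nonneg _
    positivity
  have hZX : ‖Z‖ ≤ 4 * E * X := by
    refine (norm_sum_le _ _).trans ?_
    rw [hX, mul_sum]
    refine sum_le_sum fun i hi => ?_
    have hi' := mem_range.mp hi
    have hb := hR.b10 i hi'
    have h0 : 0 ≤ Real.log (b i) := Real.log_nonneg (by linarith)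
    rw [norm_mul, norm_prod]
    have h1 := ll_bound (hν i hi') hb (fun p hp => ⟨(hR.pr i p hp).1, (hR.pr i p hp).2.2⟩) hS hQ (K i) (hc i hi').1
    have h2 : 0 ≤ ∏ j ∈ (range J).erase i, ‖∫ q, q.2 * f j q.1 ∂(ν j)‖ := prod_nonneg fun _ _ => norm_nonneg _
    calc _ ≤ (4 * (K i * Real.log (b i)) * E) * ∏ j ∈ (range J).erase i, ‖∫ q, q.2 * f j q.1 ∂(ν j)‖ := by
          refine mul_le_mul_of_nonneg_right (h1.trans ?_) h2
          exact mul_le_mul_of_nonneg_left (hE i hi') (by positivity)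
      _ = _ := by ring
  have hfin : ‖∫ t in Set.Ioi (0:ℝ), ((wz κ T t : ℝ) : ℂ) * ∏ i ∈ range J, f i (zz I t i)‖ ≤
      ‖((Real.log (Yf κ T) + Ck κ : ℝ) : ℂ) * P - Z‖ + T ^ (-η₀) := by
    have := norm_le_norm_add_norm_sub' (∫ t in Set.Ioi (0:ℝ), ((wz κ T t : ℝ) : ℂ) * ∏ i ∈ range J, f i (zz I t i))
      (((Real.log (Yf κ T) + Ck κ : ℝ) : ℂ) * P - Z)
    linarith
  refine hfin.trans ?_
  have h1 : ‖((Real.log (Yf κ T) + Ck κ : ℝ) : ℂ) * P - Z‖ ≤ 3 * L * ‖P‖ + 4 * E * X := by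
    refine (norm_sub_le _ _).trans ?_
    rw [norm_mul, Complex.norm_real, Real.norm_eq_abs]
    exact add_le_add (mul_le_mul_of_nonneg_right hA (norm_nonneg _)) hZX
  rw [← hP1]
  have h2 : 0 ≤ L * ‖P‖ := by positivity
  have h3 : 0 ≤ E * (L * ‖P‖) := by positivity
  nlinarith

end

end Pool.Agent.TH838.LK
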