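import Pool.Agent.TH806.LK.Defs

set_option autoImplicit false

/-!
LK project: expansion of products of block polynomials into monomials.
-/

namespace Pool.Agent.TH838.LK

open Finset Filter Topology MeasureTheory MonoidAlgebra
open Pool.Agent.W184.NZ
open Pool.Agent.TH806
open Pool.Agent.TH806.LK
open Pool.Agent.H306R2.SM (om cl Yf)
open Pool.Agent.H262R4.TM (Rng Ck)

noncomputable section

/-- extension of a finite choice -/
def ext {J : ℕ} (φ : Fin J → ℕ × ℕ) (i : ℕ) : ℕ × ℕ := if h : i < J then φ ⟨i, h⟩ else (0, 0)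

/-- the index set -/
def PH (J : ℕ) (K : ℕ → ℕ) : Finset (Fin J → ℕ × ℕ) :=
  Fintype.piFinset fun i : Fin J => range (K i + 1) ×ˢ range (K i + 1)

lemma ext_mem {J : ℕ} {K : ℕ → ℕ} {φ : Fin J → ℕ × ℕ} (hφ : φ ∈ PH J K) {i : ℕ} (hi : i < J) :
    (ext φ i).1 ≤ K i ∧ (ext φ i).2 ≤ K i := by
  unfold PH at hφ
  rw [Fintype.mem_piFinset] at hφ
  have h := hφ ⟨i, hi⟩
  rw [mem_product, mem_range, mem_range] at h
  unfold ext
  rw [dif_pos hi]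
  exact ⟨by simpa using Nat.lt_succ_iff.mp h.1, by simpa using Nat.lt_succ_iff.mp h.2⟩

lemma expand {R : Type*} [CommSemiring R] (J : ℕ) (K : ℕ → ℕ) (g : ℕ → ℕ × ℕ → R) :
    ∏ i ∈ range J, ∑ x ∈ range (K i + 1) ×ˢ range (K i + 1), g i x =
      ∑ φ ∈ PH J K, ∏ i ∈ range J, g i (ext φ i) := by
  rw [Finset.prod_range, Finset.prod_univ_sum]
  unfold PH
  refine sum_congr rfl fun φ _ => ?_
  rw [Finset.prod_range]
  refine prod_congr rfl fun i _ => ?_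
  unfold ext
  rw [dif_pos i.2]

/-- expansion with one special factor -/
lemma expand_erase {R : Type*} [CommSemiring R] (J : ℕ) (K : ℕ → ℕ) (g h : ℕ → ℕ × ℕ → R) {i₀ : ℕ}
    (hi : i₀ < J) :
    (∑ x ∈ range (K i₀ + 1) ×ˢ range (K i₀ + 1), g i₀ x) *
      ∏ i ∈ (range J).erase i₀, ∑ x ∈ range (K i + 1) ×ˢ range (K i + 1), h i x =
      ∑ φ ∈ PH J K, g i₀ (ext φ i₀) * ∏ i ∈ (range J).erase i₀, h i (ext φ i) := by
  have h1 := expand J K (fun i x => if i = i₀ then g i x else h i x)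
  rw [← mul_prod_erase (range J) _ (mem_range.mpr hi)] at h1
  simp only [if_true] at h1
  rw [prod_congr rfl (g := fun i => ∑ x ∈ range (K i + 1) ×ˢ range (K i + 1), h i x)] at h1
  · rw [h1]
    refine sum_congr rfl fun φ _ => ?_
    rw [← mul_prod_erase (range J) _ (mem_range.mpr hi)]
    simp only [if_true]
    congr 1
    refine prod_congr rfl fun i hi' => ?_
    rw [if_neg (ne_of_mem_erase hi')]
  · intro i hi'
    simp only [if_neg (ne_of_mem_erase hi')]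

lemma Fc_prod (K : ℕ) (c : ℕ → ℕ → ℂ) (z : ℂ) :
    Fc K c z = ∑ x ∈ range (K + 1) ×ˢ range (K + 1), c x.1 x.2 * (z ^ x.1 * (starRingEnd ℂ z) ^ x.2) := by
  unfold Fc
  rw [sum_product]

/-- the coefficient of a choice -/
def WC (J : ℕ) (c : ℕ → ℕ → ℕ → ℂ) (e : ℕ → ℕ × ℕ) : ℂ := ∏ i ∈ range J, c i (e i).1 (e i).2

/-- the monomial of a block -/
def mm (I : Finset ℕ) (x : ℕ × ℕ) : DA := xI I ^ x.1 * yI I ^ x.2

/-- the monomial of a choice -/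
def MM (J : ℕ) (I : ℕ → Finset ℕ) (e : ℕ → ℕ × ℕ) : DA := ∏ i ∈ range J, mm (I i) (e i)

lemma prod_Fc (J : ℕ) (K : ℕ → ℕ) (c : ℕ → ℕ → ℕ → ℂ) (z : ℕ → ℂ) :
    ∏ i ∈ range J, Fc (K i) (c i) (z i) = ∑ φ ∈ PH J K, WC J c (ext φ) *
      ∏ i ∈ range J, (z i ^ (ext φ i).1 * (starRingEnd ℂ (z i)) ^ (ext φ i).2) := by
  simp_rw [Fc_prod]
  rw [expand]
  refine sum_congr rfl fun φ _ => ?_
  unfold WC
  rw [prod_mul_distrib]

lemma ev_mm (t : ℝ) {I : Finset ℕ} (hI : ∀ p ∈ I, p.Prime) (x : ℕ × ℕ) :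
    ev t (mm I x) = PI I (1 / 2 + t * Complex.I) ^ x.1 *
      (starRingEnd ℂ (PI I (1 / 2 + t * Complex.I))) ^ x.2 := by
  unfold mm
  rw [map_mul, map_pow, map_pow, ev_xI, ev_yI t hI]

lemma ev_MM (t : ℝ) {J : ℕ} {I : ℕ → Finset ℕ} (hI : ∀ i, ∀ p ∈ I i, p.Prime) (e : ℕ → ℕ × ℕ) :
    ev t (MM J I e) = ∏ i ∈ range J, (zz I t i ^ (e i).1 * (starRingEnd ℂ (zz I t i)) ^ (e i).2) := by
  unfold MM
  rw [map_prod]
  exact prod_congr rfl fun i _ => ev_mm t (hI i) _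

/-- expansion of the values -/
lemma prod_ev {J : ℕ} {I : ℕ → Finset ℕ} (hI : ∀ i, ∀ p ∈ I i, p.Prime) {K : ℕ → ℕ} {c : ℕ → ℕ → ℕ → ℂ}
    {f : ℕ → ℂ → ℂ} (hf : ∀ i < J, ∀ z, f i z = Fc (K i) (c i) z) (t : ℝ) :
    ∏ i ∈ range J, f i (zz I t i) = ∑ φ ∈ PH J K, WC J c (ext φ) * ev t (MM J I (ext φ)) := by
  rw [prod_congr rfl fun i hi => hf i (mem_range.mp hi) (zz I t i), prod_Fc]
  refine sum_congr rfl fun φ _ => ?_
  rw [ev_MM t hI]

/-- expansion of the values of a symmetric product: only the real parts of the monomials count -/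
lemma prod_re {J : ℕ} {I : ℕ → Finset ℕ} (hI : ∀ i, ∀ p ∈ I i, p.Prime) {K : ℕ → ℕ} {c : ℕ → ℕ → ℕ → ℂ}
    {f : ℕ → ℂ → ℂ} (hf : ∀ i < J, ∀ z, f i z = Fc (K i) (c i) z) (hs : ∀ i < J, Sym (f i)) (t : ℝ) :
    ∏ i ∈ range J, f i (zz I t i) =
      ∑ φ ∈ PH J K, WC J c (ext φ) * (((ev t (MM J I (ext φ))).re : ℝ) : ℂ) := by
  have h1 := prod_ev hI hf t
  have h2 : ∏ i ∈ range J, f i (zz I t i) =
      ∑ φ ∈ PH J K, WC J c (ext φ) * starRingEnd ℂ (ev t (MM J I (ext φ))) := by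
    rw [prod_congr rfl fun i hi => (hs i (mem_range.mp hi) (zz I t i)).symm,
      prod_congr rfl fun i hi => hf i (mem_range.mp hi) (starRingEnd ℂ (zz I t i)), prod_Fc]
    refine sum_congr rfl fun φ _ => ?_
    rw [ev_MM t hI, map_prod]
    congr 1
    refine prod_congr rfl fun i _ => ?_
    rw [map_mul, map_pow, map_pow]
  have h3 : (2 : ℂ) * ∏ i ∈ range J, f i (zz I t i) =
      2 * ∑ φ ∈ PH J K, WC J c (ext φ) * (((ev t (MM J I (ext φ))).re : ℝ) : ℂ) := by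
    rw [two_mul]
    nth_rewrite 1 [h1]
    rw [h2, ← sum_add_distrib, mul_sum]
    refine sum_congr rfl fun φ _ => ?_
    rw [← mul_add, Complex.add_conj]
    push_cast
    ring
  exact mul_left_cancel₀ two_ne_zero h3

lemma mm_Bd {I : Finset ℕ} {b : ℝ} (hI : ∀ p ∈ I, p.Prime ∧ (p:ℝ) ≤ b) (x : ℕ × ℕ) :
    Bd (b ^ (x.1 + x.2)) (mm I x) := by
  unfold mm
  rw [pow_add]
  exact ((xI_Bd hI).pow _).mul ((yI_Bd hI).pow _)

lemma mm_l1 {I : Finset ℕ} {b : ℝ} (hb : 0 ≤ b) (hI : ∀ p ∈ I, p.Prime ∧ (p:ℝ) ≤ b) (x : ℕ × ℕ) :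
    l1 (mm I x) ≤ b ^ (x.1 + x.2) := by
  unfold mm
  rw [pow_add]
  refine (l1_mul _ _).trans (mul_le_mul ((l1_pow _ _).trans ?_) ((l1_pow _ _).trans ?_) (l1_nonneg _)
    (by positivity))
  · exact pow_le_pow_left₀ (l1_nonneg _) (xI_l1 hb hI) _
  · exact pow_le_pow_left₀ (l1_nonneg _) (yI_l1 hb hI) _

lemma mm_Nn {I : Finset ℕ} (x : ℕ × ℕ) : Nn (mm I x) := (xI_Nn.pow _).mul (yI_Nn.pow _)

lemma mm_mem {I : Finset ℕ} (hI : ∀ p ∈ I, p.Prime) (x : ℕ × ℕ) : mm I x ∈ SA (MI I) :=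
  Subalgebra.mul_mem _ (Subalgebra.pow_mem _ (xI_mem hI) _) (Subalgebra.pow_mem _ (yI_mem hI) _)

section
variable {J : ℕ} {I : ℕ → Finset ℕ} {b : ℕ → ℝ} {cc : ℝ}

lemma MM_Bd (h : Rg cc J I b) {K : ℕ → ℕ} {e : ℕ → ℕ × ℕ} (he : ∀ i < J, (e i).1 ≤ K i ∧ (e i).2 ≤ K i) :
    Bd (Real.exp (2 * ∑ i ∈ range J, (K i : ℝ) * Real.log (b i))) (MM J I e) := by
  have h1 : Real.exp (2 * ∑ i ∈ range J, (K i : ℝ) * Real.log (b i)) = ∏ i ∈ range J, b i ^ (2 * K i) := by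
    rw [mul_sum, Real.exp_sum]
    refine prod_congr rfl fun i hi => ?_
    have hb := h.b10 i (mem_range.mp hi)
    rw [show 2 * ((K i : ℝ) * Real.log (b i)) = ((2 * K i : ℕ) : ℝ) * Real.log (b i) by push_cast; ring,
      Real.exp_nat_mul, Real.exp_log (by linarith)]
  rw [h1]
  refine Bd_prod J (fun i hi => ?_) fun i hi => ?_
  · have := h.b10 i hi
    positivity
  · refine (mm_Bd (fun p hp => ⟨(h.pr i p hp).1, (h.pr i p hp).2.2⟩) _).mono ?_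
    have hb := h.b10 i hi
    have := he i hi
    exact pow_le_pow_right₀ (by linarith) (by omega)

lemma MM_l1 (h : Rg cc J I b) (e : ℕ → ℕ × ℕ) :
    l1 (MM J I e) ≤ ∏ i ∈ range J, b i ^ ((e i).1 + (e i).2) := by
  refine l1_prod J (fun i hi => ?_) fun i hi => ?_
  · have := h.b10 i hi
    positivity
  · exact mm_l1 (by linarith [h.b10 i hi]) (fun p hp => ⟨(h.pr i p hp).1, (h.pr i p hp).2.2⟩) _

lemma Rg_pr (h : Rg cc J I b) : ∀ i, ∀ p ∈ I i, p.Prime := fun i p hp => (h.pr i p hp).1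

lemma lam_MM {w : ℕ × ℕ → ℝ} {κ : ℝ} (hw : GoodW w κ) (h : Rg cc J I b) (e : ℕ → ℕ × ℕ) :
    lam w (MM J I e) = ∏ i ∈ range J, lam w (mm (I i) (e i)) :=
  lam_prod hw J h.dj fun i => mm_mem (Rg_pr h i) _

lemma laml_prod_eq {f : ℕ → DA} (J : ℕ) (hd : ∀ i j, i < j → Disjoint (I i) (I j))
    (hf : ∀ i, f i ∈ SA (MI (I i))) :
    lam wl (∏ i ∈ range J, f i) =
      ∑ i ∈ range J, lam wl (f i) * ∏ j ∈ (range J).erase i, lam w1 (f j) := by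
  induction J with
  | zero =>
    rw [range_zero, prod_empty, sum_empty, MonoidAlgebra.one_def, lam_single]
    unfold wl
    simp
  | succ J ih =>
    have h1 : lam w1 (∏ i ∈ range J, f i) = ∏ i ∈ range J, lam w1 (f i) := lam_prod goodW1 J hd hf
    rw [prod_range_succ, laml_mul (disj_union J hd) (prod_mem J fun i _ => hf i) (hf J), ih, h1,
      sum_range_succ, sum_mul]
    congr 1
    · refine sum_congr rfl fun i hi => ?_
      have hi' := mem_range.mp hi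
      rw [range_add_one, erase_insert_of_ne (by omega : J ≠ i), prod_insert (by simp)]
      ring
    · rw [range_add_one, erase_insert (by simp), mul_comm]

lemma laml_MM (h : Rg cc J I b) (e : ℕ → ℕ × ℕ) :
    lam wl (MM J I e) =
      ∑ i ∈ range J, lam wl (mm (I i) (e i)) * ∏ j ∈ (range J).erase i, lam w1 (mm (I j) (e j)) :=
  laml_prod_eq J h.dj fun i => mm_mem (Rg_pr h i) _

end

lemma integ2 {E : Type*} [NormedAddCommGroup E] {ν : Measure (ℂ × ℂ)} [IsFiniteMeasure ν] {B : ℝ}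
    (hB : ∀ᵐ q ∂ν, ‖q.1‖ ≤ B ∧ ‖q.2‖ ≤ B) {f : ℂ × ℂ → E} (hf : Continuous f) : Integrable f ν := by
  obtain ⟨C, hC⟩ := (isCompact_closedBall (0 : ℂ × ℂ) B).exists_bound_of_continuousOn hf.continuousOn
  refine Integrable.of_bound hf.aestronglyMeasurable C ?_
  filter_upwards [hB] with q hq
  exact hC q (by rw [mem_closedBall_zero_iff, Prod.norm_def]; exact max_le hq.1 hq.2)

/-- the integral against the law of a block -/
lemma int_Fc {w : ℕ × ℕ → ℝ} {κ₁ κ₂ Q C : ℝ} {I : Finset ℕ} {ν : Measure (ℂ × ℂ)}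
    (h : LW w κ₁ κ₂ Q C I ν) (K : ℕ) (c : ℕ → ℕ → ℂ) :
    ∫ q, q.2 * Fc K c q.1 ∂ν =
      ∑ x ∈ range (K + 1) ×ˢ range (K + 1), c x.1 x.2 * ((lam w (mm I x) : ℝ) : ℂ) := by
  have := h.prob
  obtain ⟨B, hB⟩ := h.bdd
  have hi : ∀ k l : ℕ, Integrable (fun q : ℂ × ℂ => q.2 * (q.1 ^ k * (starRingEnd ℂ q.1) ^ l)) ν :=
    fun k l => integ2 hB (by fun_prop)
  have e1 : ∀ q : ℂ × ℂ, q.2 * Fc K c q.1 = ∑ x ∈ range (K + 1) ×ˢ range (K + 1),
      c x.1 x.2 * (q.2 * (q.1 ^ x.1 * (starRingEnd ℂ q.1) ^ x.2)) := by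
    intro q
    rw [Fc_prod, mul_sum]
    refine sum_congr rfl fun x _ => ?_
    ring
  simp_rw [e1]
  rw [integral_finsetSum _ fun x _ => (hi x.1 x.2).const_mul _]
  refine sum_congr rfl fun x _ => ?_
  rw [integral_const_mul, h.mom]
  rfl

/-- product of the integrals -/
lemma prod_int {w : ℕ × ℕ → ℝ} {κ₁ κ₂ Q C : ℝ} {J : ℕ} {I : ℕ → Finset ℕ} {ν : ℕ → Measure (ℂ × ℂ)}
    (h : ∀ i < J, LW w κ₁ κ₂ Q C (I i) (ν i)) {K : ℕ → ℕ} {c : ℕ → ℕ → ℕ → ℂ} {f : ℕ → ℂ → ℂ}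
    (hf : ∀ i < J, ∀ z, f i z = Fc (K i) (c i) z) :
    ∏ i ∈ range J, ∫ q, q.2 * f i q.1 ∂(ν i) =
      ∑ φ ∈ PH J K, WC J c (ext φ) * ((∏ i ∈ range J, lam w (mm (I i) (ext φ i)) : ℝ) : ℂ) := by
  have e1 : ∀ i ∈ range J, ∫ q, q.2 * f i q.1 ∂(ν i) = ∑ x ∈ range (K i + 1) ×ˢ range (K i + 1),
      c i x.1 x.2 * ((lam w (mm (I i) x) : ℝ) : ℂ) := by
    intro i hi
    simp_rw [hf i (mem_range.mp hi)]
    exact int_Fc (h i (mem_range.mp hi)) _ _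
  rw [prod_congr rfl e1, expand]
  refine sum_congr rfl fun φ _ => ?_
  unfold WC
  rw [prod_mul_distrib]
  push_cast
  rfl

/-- the total size of the coefficients -/
lemma sum_WC (J : ℕ) (K : ℕ → ℕ) (c : ℕ → ℕ → ℕ → ℂ) (b : ℕ → ℝ) :
    ∑ φ ∈ PH J K, ‖WC J c (ext φ)‖ * ∏ i ∈ range J, b i ^ ((ext φ i).1 + (ext φ i).2) =
      ∏ i ∈ range J, ∑ x ∈ range (K i + 1) ×ˢ range (K i + 1), ‖c i x.1 x.2‖ * b i ^ (x.1 + x.2) := by
  rw [expand]
  refine sum_congr rfl fun φ _ => ?_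
  unfold WC
  rw [norm_prod, prod_mul_distrib]

end

end Pool.Agent.TH838.LK
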